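import Pool.Agent.E8helper30.MC.Stm

set_option autoImplicit false

namespace Pool.Agent.E8helper88.MC

open Pool.Agent.E8helper30.MC
open scoped Classical

theorem t_TR : S_TR := by
  intro α S φ K
  induction K with
  | zero =>
    exact ⟨∅, Finset.empty_subset _, le_rfl, fun θ => Or.inr ⟨rfl, Finset.empty_subset _⟩⟩
  | succ K ih =>
    obtain ⟨T, hTS, hTK, hT⟩ := ih
    by_cases hne : (S \ T).Nonempty
    · obtain ⟨w0, hw0, hmax⟩ := Finset.exists_max_image (S \ T) φ hne
      rw [Finset.mem_sdiff] at hw0
      have hcard : (insert w0 T).card = T.card + 1 := Finset.card_insert_of_notMem hw0.2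
      refine ⟨insert w0 T, Finset.insert_subset hw0.1 hTS, by omega, fun θ => ?_⟩
      rcases hT θ with h | ⟨h1, h2⟩
      · exact Or.inl (h.trans (Finset.subset_insert _ _))
      · by_cases hθ : θ < φ w0
        · refine Or.inr ⟨by omega, Finset.insert_subset (Finset.mem_filter.2 ⟨hw0.1, hθ⟩) h2⟩
        · refine Or.inl fun w hw => ?_
          rw [Finset.mem_filter] at hw
          refine Finset.mem_insert_of_mem ?_
          by_contra hwT
          have := hmax w (Finset.mem_sdiff.2 ⟨hw.1, hwT⟩)
          have := hw.2
          omega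
    · rw [Finset.not_nonempty_iff_eq_empty, Finset.sdiff_eq_empty_iff_subset] at hne
      exact ⟨T, hTS, by omega, fun θ => Or.inl ((Finset.filter_subset _ _).trans hne)⟩

theorem t_SUB : S_SUB := by
  intro α D K
  induction K with
  | zero =>
    rw [pow_zero]
    refine Finset.card_le_one.2 fun a ha b hb => ?_
    rw [Finset.mem_filter] at ha hb
    rw [Finset.card_eq_zero.1 (Nat.le_zero.1 ha.2), Finset.card_eq_zero.1 (Nat.le_zero.1 hb.2)]
  | succ K ih =>
    set F := D.powerset.filter fun T => T.card ≤ K with hF
    have hsub : (D.powerset.filter fun T => T.card ≤ K + 1) ⊆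
        ((Finset.insertNone D) ×ˢ F).image
          (fun x : Option α × Finset α => x.1.elim x.2 (fun a => insert a x.2)) := by
      intro T hT
      rw [Finset.mem_filter, Finset.mem_powerset] at hT
      rw [Finset.mem_image]
      rcases T.eq_empty_or_nonempty with h | ⟨a, ha⟩
      · refine ⟨(none, ∅), ?_, ?_⟩
        · rw [Finset.mem_product]
          refine ⟨Finset.none_mem_insertNone, ?_⟩
          rw [hF, Finset.mem_filter]
          exact ⟨Finset.empty_mem_powerset _, by simp⟩
        · simp [h]
      · refine ⟨(some a, T.erase a), ?_, ?_⟩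
        · rw [Finset.mem_product]
          refine ⟨Finset.some_mem_insertNone.2 (hT.1 ha), ?_⟩
          rw [hF, Finset.mem_filter, Finset.mem_powerset, Finset.card_erase_of_mem ha]
          exact ⟨(Finset.erase_subset _ _).trans hT.1, by omega⟩
        · simp [Finset.insert_erase ha]
    calc (D.powerset.filter fun T => T.card ≤ K + 1).card ≤ _ := Finset.card_le_card hsub
      _ ≤ ((Finset.insertNone D) ×ˢ F).card := Finset.card_image_le
      _ = (D.card + 1) * F.card := by rw [Finset.card_product, Finset.card_insertNone]
      _ ≤ (D.card + 1) * (D.card + 1) ^ K := Nat.mul_le_mul_left _ ih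
      _ = (D.card + 1) ^ (K + 1) := by rw [pow_succ]; ring

end Pool.Agent.E8helper88.MC
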